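import Pool.Agent.N66.T2

/-!
The pair `(S,T)` does not have relative property (T): an affine isometric action of `S` on a real
Hilbert space without a point fixed by Thompson's group `T`.
-/

open Filter Topology OnePoint Matrix
open scoped MatrixGroups

namespace Pool.Agent.Results.MP_f786e3_al.RelT

open Pool.Agent.N66.RT Pool.Agent.N66.Aff

/-- The homeomorphism `s` of the problem. -/
def IsS (s : OnePoint ℝ ≃ₜ OnePoint ℝ) : Prop :=
  s ∞ = ∞ ∧ ∀ t : ℝ,
    (t ≤ 0 → s (t : OnePoint ℝ) = (t : OnePoint ℝ)) ∧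
    (0 ≤ t → t ≤ 1 → s (t : OnePoint ℝ) = ((2 * t / (1 + t) : ℝ) : OnePoint ℝ)) ∧
    (1 ≤ t → t ≤ 2 → s (t : OnePoint ℝ) = ((2 / (3 - t) : ℝ) : OnePoint ℝ)) ∧
    (2 ≤ t → s (t : OnePoint ℝ) = (t : OnePoint ℝ))

/-- The group generated by Thompson's group `T` and `s`. -/
def groupS (s : OnePoint ℝ ≃ₜ OnePoint ℝ) : Subgroup (OnePoint ℝ ≃ₜ OnePoint ℝ) :=
  Subgroup.closure (thompsonT ∪ {s})

/-- `G` has an affine isometric action on a real Hilbert space in which no point is fixed by all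
elements of `T`. -/
def HasActionWithoutFixedPoint (G : Subgroup (OnePoint ℝ ≃ₜ OnePoint ℝ))
    (T : Set (OnePoint ℝ ≃ₜ OnePoint ℝ)) : Prop :=
  ∃ (E : Type) (_ : NormedAddCommGroup E) (_ : InnerProductSpace ℝ E) (_ : CompleteSpace E)
    (ρ : G →* (E ≃ᵃⁱ[ℝ] E)),
    ∀ v : E, ∃ t : G, (t : OnePoint ℝ ≃ₜ OnePoint ℝ) ∈ T ∧ ρ t v ≠ v

theorem isS_unique {s s' : OnePoint ℝ ≃ₜ OnePoint ℝ} (h : IsS s) (h' : IsS s') : s = s' := by
  ext x
  induction x using OnePoint.rec with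
  | infty => rw [h.1, h'.1]
  | coe t =>
    obtain ⟨a1, a2, a3, a4⟩ := h.2 t
    obtain ⟨b1, b2, b3, b4⟩ := h'.2 t
    rcases le_total t 0 with c | c
    · rw [a1 c, b1 c]
    rcases le_total t 1 with d | d
    · rw [a2 c d, b2 c d]
    rcases le_total t 2 with e | e
    · rw [a3 d e, b3 d e]
    · rw [a4 e, b4 e]

theorem isS_sR : IsS sR.onePointCongr := by
  refine ⟨rfl, fun t => ?_⟩
  have h0 : sR.onePointCongr (t : OnePoint ℝ) = ((sf t : ℝ) : OnePoint ℝ) := rfl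
  rw [h0]
  refine ⟨fun h => ?_, fun h1 h2 => ?_, fun h1 h2 => ?_, fun h => ?_⟩
  · unfold sf; rw [if_pos h]
  · unfold sf
    rcases eq_or_lt_of_le h1 with h | h
    · subst h; simp
    · rw [if_neg (not_le.2 h), if_pos h2]
  · unfold sf
    rcases eq_or_lt_of_le h1 with h | h
    · subst h; norm_num
    · rw [if_neg (by linarith), if_neg (not_le.2 h), if_pos h2]
  · unfold sf
    rcases eq_or_lt_of_le h with h | h
    · subst h; norm_num
    · rw [if_neg (by linarith), if_neg (by linarith), if_neg (not_le.2 h)]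

/-- near a real point -/
theorem near_real (f : ℝ ≃ₜ ℝ) (x : ℝ) (g : GL (Fin 2) ℝ)
    (h : ∀ᶠ t in 𝓝 x, g 1 0 * t + g 1 1 ≠ 0 ∧ f t = (g 0 0 * t + g 0 1) / (g 1 0 * t + g 1 1)) :
    ∀ᶠ y in 𝓝 (x : OnePoint ℝ), f.onePointCongr y = g • y := by
  rw [OnePoint.nhds_coe_eq, Filter.eventually_map]
  filter_upwards [h] with t ht
  rw [OnePoint.smul_some_eq_ite, if_neg ht.1]
  show ((f t : ℝ) : OnePoint ℝ) = _
  rw [ht.2]
  try simp

theorem near_real' (f : ℝ ≃ₜ ℝ) (x : ℝ) (a b c d : ℝ) (hd : a * d - b * c ≠ 0)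
    (h : ∀ᶠ t in 𝓝 x, c * t + d ≠ 0 ∧ f t = (a * t + b) / (c * t + d)) :
    ProjAt f.onePointCongr (x : OnePoint ℝ) :=
  ⟨GeneralLinearGroup.mkOfDetNeZero !![a, b; c, d] (by rw [det_fin_two_of]; exact hd),
    near_real f x _ (by simpa [GeneralLinearGroup.mkOfDetNeZero] using h)⟩

theorem near_int (f : ℝ ≃ₜ ℝ) (x : ℝ) (a b c d : ℤ) (hd : a * d - b * c = 1)
    (h : ∀ᶠ t in 𝓝 x, (c : ℝ) * t + d ≠ 0 ∧ f t = ((a : ℝ) * t + b) / (c * t + d)) :
    IntProjAt f.onePointCongr (x : OnePoint ℝ) :=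
  ⟨⟨!![a, b; c, d], by rw [det_fin_two_of]; exact hd⟩,
    near_real f x _ (by simpa using h)⟩

theorem s_finBrk : sR.onePointCongr ∈ FinBrk := by
  refine Set.Finite.subset (s := {∞, ((0 : ℝ) : OnePoint ℝ), ((1 : ℝ) : OnePoint ℝ),
    ((2 : ℝ) : OnePoint ℝ)}) (by simp) ?_
  intro x hx
  by_contra h0
  apply hx
  simp only [Set.mem_insert_iff, Set.mem_singleton_iff] at h0
  push Not at h0
  obtain ⟨h1, h2, h3, h4⟩ := h0
  induction x using OnePoint.rec with
  | infty => exact absurd rfl h1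
  | coe t =>
    have h2' : t ≠ 0 := fun h => h2 (by rw [h])
    have h3' : t ≠ 1 := fun h => h3 (by rw [h])
    have h4' : t ≠ 2 := fun h => h4 (by rw [h])
    rcases lt_or_gt_of_ne h2' with c | c
    · refine near_real' sR t 1 0 0 1 (by norm_num) ?_
      filter_upwards [Iio_mem_nhds c] with u hu
      rw [Set.mem_Iio] at hu
      rw [sR_apply]; unfold sf; rw [if_pos hu.le]; constructor <;> norm_num
    rcases lt_or_gt_of_ne h3' with d | d
    · refine near_real' sR t 2 0 1 1 (by norm_num) ?_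
      filter_upwards [Ioo_mem_nhds c d] with u hu
      rw [Set.mem_Ioo] at hu
      rw [sR_apply]; unfold sf; rw [if_neg (not_le.2 hu.1), if_pos hu.2.le]
      refine ⟨by linarith [hu.1], ?_⟩
      congr 1 <;> ring
    rcases lt_or_gt_of_ne h4' with e | e
    · refine near_real' sR t 0 2 (-1) 3 (by norm_num) ?_
      filter_upwards [Ioo_mem_nhds d e] with u hu
      rw [Set.mem_Ioo] at hu
      rw [sR_apply]; unfold sf
      rw [if_neg (by linarith [hu.1]), if_neg (not_le.2 hu.1), if_pos hu.2.le]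
      refine ⟨by linarith [hu.2], ?_⟩
      congr 1 <;> ring
    · refine near_real' sR t 1 0 0 1 (by norm_num) ?_
      filter_upwards [Ioi_mem_nhds e] with u hu
      rw [Set.mem_Ioi] at hu
      rw [sR_apply]; unfold sf
      rw [if_neg (by linarith), if_neg (by linarith), if_neg (by linarith)]; constructor <;> norm_num

theorem f_mem_T : fR.onePointCongr ∈ thompsonT := by
  refine ⟨{∞, ((0 : ℝ) : OnePoint ℝ), ((1 / 2 : ℝ) : OnePoint ℝ), ((1 : ℝ) : OnePoint ℝ)},
    by simp, ?_, ?_⟩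
  · intro x hx
    simp only [Set.mem_insert_iff, Set.mem_singleton_iff] at hx
    rcases hx with h | h | h | h
    · exact Or.inl h
    · exact Or.inr ⟨0, by rw [h]; norm_num⟩
    · exact Or.inr ⟨1 / 2, by rw [h]; norm_num⟩
    · exact Or.inr ⟨1, by rw [h]; norm_num⟩
  intro x h0
  simp only [Set.mem_insert_iff, Set.mem_singleton_iff] at h0
  push Not at h0
  obtain ⟨h1, h2, h3, h4⟩ := h0
  induction x using OnePoint.rec with
  | infty => exact absurd rfl h1
  | coe t =>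
    have h2' : t ≠ 0 := fun h => h2 (by rw [h])
    have h3' : t ≠ 1 / 2 := fun h => h3 (by rw [h])
    have h4' : t ≠ 1 := fun h => h4 (by rw [h])
    rcases lt_or_gt_of_ne h2' with c | c
    · refine near_int fR t 1 0 0 1 (by norm_num) ?_
      filter_upwards [Iio_mem_nhds c] with u hu
      rw [Set.mem_Iio] at hu
      rw [fR_apply]; unfold ff; rw [if_pos hu.le]; constructor <;> norm_num
    rcases lt_or_gt_of_ne h3' with d | d
    · refine near_int fR t 1 0 (-1) 1 (by norm_num) ?_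
      filter_upwards [Ioo_mem_nhds c d] with u hu
      rw [Set.mem_Ioo] at hu
      rw [fR_apply]; unfold ff; rw [if_neg (not_le.2 hu.1), if_pos hu.2.le]
      refine ⟨by push_cast; linarith [hu.2], ?_⟩
      push_cast
      congr 1 <;> ring
    rcases lt_or_gt_of_ne h4' with e | e
    · refine near_int fR t 3 (-1) 1 0 (by norm_num) ?_
      filter_upwards [Ioo_mem_nhds d e] with u hu
      rw [Set.mem_Ioo] at hu
      rw [fR_apply]; unfold ff
      rw [if_neg (by linarith [hu.1]), if_neg (not_le.2 hu.1), if_pos hu.2.le]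
      have hu0 : u ≠ 0 := by linarith [hu.1]
      refine ⟨by push_cast; simpa using hu0, ?_⟩
      push_cast
      rw [add_zero, one_mul, eq_div_iff hu0]
      field_simp
      ring
    · refine near_int fR t 1 1 0 1 (by norm_num) ?_
      filter_upwards [Ioi_mem_nhds e] with u hu
      rw [Set.mem_Ioi] at hu
      rw [fR_apply]; unfold ff
      rw [if_neg (by linarith), if_neg (by linarith), if_neg (by linarith)]
      constructor <;> norm_num

theorem f_not_proj : ¬ ProjAt fR.onePointCongr ((0 : ℝ) : OnePoint ℝ) := by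
  rintro ⟨g, hg⟩
  rw [OnePoint.nhds_coe_eq, Filter.eventually_map, Metric.eventually_nhds_iff] at hg
  obtain ⟨ε, hε, hg⟩ := hg
  have key : ∀ t : ℝ, |t| < ε → ff t * (g 1 0 * t + g 1 1) = g 0 0 * t + g 0 1 := by
    intro t ht
    have h1 := hg (y := t) (by simpa [Real.dist_eq] using ht)
    rw [OnePoint.smul_some_eq_ite] at h1
    by_cases h2 : g 1 0 * t + g 1 1 = 0
    · rw [if_pos h2] at h1
      exact absurd h1 (OnePoint.coe_ne_infty _)
    · rw [if_neg h2] at h1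
      have h3 : ((ff t : ℝ) : OnePoint ℝ) = (((g 0 0 * t + g 0 1) / (g 1 0 * t + g 1 1) : ℝ) :
        OnePoint ℝ) := by
        rw [← fR_apply]; simpa using h1
      have h4 := OnePoint.coe_injective h3
      rw [h4, div_mul_cancel₀ _ h2]
  have hdet : g 0 0 * g 1 1 - g 0 1 * g 1 0 ≠ 0 := by
    have := g.det_ne_zero
    rwa [det_fin_two] at this
  set δ := min ε (1 / 2) with hδ
  have hδ0 : 0 < δ := lt_min hε (by norm_num)
  have hδ1 : δ ≤ ε := min_le_left _ _
  have hδ2 : δ ≤ 1 / 2 := min_le_right _ _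
  have e0 := key 0 (by simpa using hε)
  have e1 := key (-(δ / 2)) (by rw [abs_neg, abs_of_pos (by linarith)]; linarith)
  have e2 := key (-(δ / 4)) (by rw [abs_neg, abs_of_pos (by linarith)]; linarith)
  have e3 := key (δ / 4) (by rw [abs_of_pos (by linarith)]; linarith)
  have f0 : ff 0 = 0 := by unfold ff; simp
  have f1 : ff (-(δ / 2)) = -(δ / 2) := by unfold ff; rw [if_pos (by linarith)]
  have f2 : ff (-(δ / 4)) = -(δ / 4) := by unfold ff; rw [if_pos (by linarith)]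
  have f3 : ff (δ / 4) = (δ / 4) / (1 - δ / 4) := by
    unfold ff; rw [if_neg (by linarith), if_pos (by linarith)]
  rw [f0] at e0
  rw [f1] at e1
  rw [f2] at e2
  rw [f3, div_mul_eq_mul_div, div_eq_iff (by linarith)] at e3
  have hb : g 0 1 = 0 := by linarith
  rw [hb] at e1 e2 e3
  have hne : δ ≠ 0 := hδ0.ne'
  have g1 : g 1 0 * (-(δ / 2)) + g 1 1 = g 0 0 := by
    have : (-(δ / 2)) * ((g 1 0 * (-(δ / 2)) + g 1 1) - g 0 0) = 0 := by linarith
    rcases mul_eq_zero.1 this with h | h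
    · exact absurd h (by linarith)
    · linarith
  have g2 : g 1 0 * (-(δ / 4)) + g 1 1 = g 0 0 := by
    have : (-(δ / 4)) * ((g 1 0 * (-(δ / 4)) + g 1 1) - g 0 0) = 0 := by linarith
    rcases mul_eq_zero.1 this with h | h
    · exact absurd h (by linarith)
    · linarith
  have hc : g 1 0 = 0 := by
    have : g 1 0 * (δ / 4) = 0 := by linarith
    rcases mul_eq_zero.1 this with h | h
    · exact h
    · exact absurd h (by linarith)
  rw [hc] at g1 e3
  have hd : g 1 1 = g 0 0 := by linarith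
  rw [hd] at e3
  have : g 0 0 * (δ / 4 * (δ / 4)) = 0 := by nlinarith
  have ha : g 0 0 = 0 := by
    rcases mul_eq_zero.1 this with h | h
    · exact h
    · exact absurd h (by positivity)
  apply hdet
  rw [ha, hc]; ring

/-- translations -/
noncomputable def tau (n : ℕ) : OnePoint ℝ ≃ₜ OnePoint ℝ :=
  (Homeomorph.addRight (n : ℝ)).onePointCongr

theorem tau_real (n : ℕ) (t : ℝ) : tau n (t : OnePoint ℝ) = ((t + n : ℝ) : OnePoint ℝ) := rfl

theorem tau_mem_T (n : ℕ) : tau n ∈ thompsonT := by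
  refine ⟨{∞}, by simp, by simp, ?_⟩
  intro x hx
  induction x using OnePoint.rec with
  | infty => exact absurd rfl hx
  | coe t =>
    refine near_int _ t 1 n 0 1 (by norm_num) ?_
    refine Filter.Eventually.of_forall fun u => ?_
    constructor
    · norm_num
    · show u + n = _
      push_cast; ring

/-- **Main theorem.** -/
theorem result :
    (∃! s : OnePoint ℝ ≃ₜ OnePoint ℝ, IsS s) ∧
    ∀ s : OnePoint ℝ ≃ₜ OnePoint ℝ, IsS s →
      HasActionWithoutFixedPoint (groupS s) thompsonT := by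
  refine ⟨⟨_, isS_sR, fun s hs => isS_unique hs isS_sR⟩, ?_⟩
  intro s hs
  have hs' : s = sR.onePointCongr := isS_unique hs isS_sR
  have hfin : ∀ g : groupS s,
      (g : OnePoint ℝ ≃ₜ OnePoint ℝ) ∈ FinBrk := by
    intro g
    have : groupS s ≤ FinBrk := by
      unfold groupS
      rw [Subgroup.closure_le]
      rintro x (hx | hx)
      · exact T_finBrk hx
      · rw [Set.mem_singleton_iff] at hx
        rw [hx, hs']; exact s_finBrk
    exact this g.2
  have hι : ∀ g : groupS s,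
      {q : (OnePoint ℝ ≃ₜ OnePoint ℝ) ⧸ H | ι (g⁻¹ • q) ≠ ι q}.Finite := by
    intro g
    exact comm_finite g (hfin g)
  refine ⟨Pool.Agent.N66.Aff.E ((OnePoint ℝ ≃ₜ OnePoint ℝ) ⧸ H), inferInstance, inferInstance, inferInstance,
    act ι hι, ?_⟩
  intro v
  by_contra hcon
  push Not at hcon
  -- `w = ι + v` is invariant
  have hw : ∀ t : OnePoint ℝ ≃ₜ OnePoint ℝ, t ∈ thompsonT →
      ∀ q, ι (t • q) + v (t • q) = ι q + v q := by
    intro t ht q
    have h1 := hcon ⟨t, Subgroup.subset_closure (Or.inl ht)⟩ ht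
    have h2 := congrArg (fun w : Pool.Agent.N66.Aff.E ((OnePoint ℝ ≃ₜ OnePoint ℝ) ⧸ H) => w (t • q)) h1
    simp only [act_apply] at h2
    have h3 : (⟨t, Subgroup.subset_closure (Or.inl ht)⟩ :
      groupS s)⁻¹ • (t • q) = q := inv_smul_smul t q
    rw [h3] at h2
    linarith
  set c := ι ((1 : OnePoint ℝ ≃ₜ OnePoint ℝ) : (OnePoint ℝ ≃ₜ OnePoint ℝ) ⧸ H) +
    v ((1 : OnePoint ℝ ≃ₜ OnePoint ℝ) : (OnePoint ℝ ≃ₜ OnePoint ℝ) ⧸ H) with hc
  have hτ0 : ∀ n, ProjAt (tau n) ((0 : ℝ) : OnePoint ℝ) := by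
    intro n
    refine near_real' _ 0 1 n 0 1 (by norm_num) ?_
    refine Filter.Eventually.of_forall fun u => ?_
    constructor
    · norm_num
    · show u + n = _
      ring
  have inj : ∀ (f : OnePoint ℝ ≃ₜ OnePoint ℝ), f ((0 : ℝ) : OnePoint ℝ) = ((0 : ℝ) : OnePoint ℝ) →
      Function.Injective (fun n : ℕ =>
        ((tau n * f : OnePoint ℝ ≃ₜ OnePoint ℝ) : (OnePoint ℝ ≃ₜ OnePoint ℝ) ⧸ H)) := by
    intro f hf n m hnm
    have h1 := congrArg ev hnm
    simp only [ev_mk] at h1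
    have h2 : ∀ k : ℕ, (tau k * f) ((0 : ℝ) : OnePoint ℝ) = ((k : ℝ) : OnePoint ℝ) := by
      intro k
      show tau k (f _) = _
      rw [hf, tau_real, zero_add]
    rw [h2, h2] at h1
    exact_mod_cast OnePoint.coe_injective h1
  have c1 : c - 1 = 0 := by
    refine eq_zero_of_const v (c - 1) _ (inj 1 rfl) ?_
    intro n
    have h1 := hw (tau n) (tau_mem_T n) ((1 : OnePoint ℝ ≃ₜ OnePoint ℝ) :
      (OnePoint ℝ ≃ₜ OnePoint ℝ) ⧸ H)
    have h2 : tau n • ((1 : OnePoint ℝ ≃ₜ OnePoint ℝ) : (OnePoint ℝ ≃ₜ OnePoint ℝ) ⧸ H) =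
      ((tau n * 1 : OnePoint ℝ ≃ₜ OnePoint ℝ) : (OnePoint ℝ ≃ₜ OnePoint ℝ) ⧸ H) := rfl
    rw [h2] at h1
    have h3 : ι ((tau n * 1 : OnePoint ℝ ≃ₜ OnePoint ℝ) : (OnePoint ℝ ≃ₜ OnePoint ℝ) ⧸ H) = 1 := by
      unfold ι
      rw [if_pos]
      rw [mem_M, mul_one]
      exact hτ0 n
    rw [h3] at h1
    linarith
  have hf0 : fR.onePointCongr ((0 : ℝ) : OnePoint ℝ) = ((0 : ℝ) : OnePoint ℝ) := by
    have : fR.onePointCongr ((0 : ℝ) : OnePoint ℝ) = ((ff 0 : ℝ) : OnePoint ℝ) := rfl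
    rw [this]; unfold ff; simp
  have c0 : c = 0 := by
    refine eq_zero_of_const v c _ (inj fR.onePointCongr hf0) ?_
    intro n
    have h1 := hw (tau n) (tau_mem_T n) ((fR.onePointCongr : OnePoint ℝ ≃ₜ OnePoint ℝ) :
      (OnePoint ℝ ≃ₜ OnePoint ℝ) ⧸ H)
    have h2 : tau n • ((fR.onePointCongr : OnePoint ℝ ≃ₜ OnePoint ℝ) :
      (OnePoint ℝ ≃ₜ OnePoint ℝ) ⧸ H) =
      ((tau n * fR.onePointCongr : OnePoint ℝ ≃ₜ OnePoint ℝ) :
        (OnePoint ℝ ≃ₜ OnePoint ℝ) ⧸ H) := rfl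
    have h3 := hw fR.onePointCongr f_mem_T ((1 : OnePoint ℝ ≃ₜ OnePoint ℝ) :
      (OnePoint ℝ ≃ₜ OnePoint ℝ) ⧸ H)
    have h4 : fR.onePointCongr • ((1 : OnePoint ℝ ≃ₜ OnePoint ℝ) :
      (OnePoint ℝ ≃ₜ OnePoint ℝ) ⧸ H) =
      ((fR.onePointCongr * 1 : OnePoint ℝ ≃ₜ OnePoint ℝ) :
        (OnePoint ℝ ≃ₜ OnePoint ℝ) ⧸ H) := rfl
    rw [h4, mul_one, ← hc] at h3
    rw [h2, h3] at h1
    have h5 : ι ((tau n * fR.onePointCongr : OnePoint ℝ ≃ₜ OnePoint ℝ) :
        (OnePoint ℝ ≃ₜ OnePoint ℝ) ⧸ H) = 0 := by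
      unfold ι
      rw [if_neg]
      rw [mem_M]
      intro h6
      apply f_not_proj
      have h7 : fR.onePointCongr = (tau n)⁻¹ * (tau n * fR.onePointCongr) := by group
      rw [h7]
      refine ProjAt.mul h6 ?_
      have h8 : (tau n * fR.onePointCongr) ((0 : ℝ) : OnePoint ℝ) =
        tau n ((0 : ℝ) : OnePoint ℝ) := by
        change tau n (fR.onePointCongr ((0 : ℝ) : OnePoint ℝ)) = _
        rw [hf0]
      rw [h8]
      exact (hτ0 n).inv
    rw [h5] at h1
    linarith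
  linarith

end Pool.Agent.Results.MP_f786e3_al.RelT
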